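import Pool.Agent.Q145.HC.Stm

/-!
Project HC, job LID: the Dirichlet series of `χ λ`
-/

set_option autoImplicit false

namespace Pool.Agent.Q68.HC

open Finset Complex
open Pool.Agent.Q145.HC

/-! ## The divisor sum of the Liouville function -/

open Classical in
/-- the indicator of the positive squares -/
noncomputable def sqi : ArithmeticFunction ℤ where
  toFun n := if n ≠ 0 ∧ IsSquare n then 1 else 0
  map_zero' := by simp

theorem sqi_pos {n : ℕ} (h : n ≠ 0) (h2 : IsSquare n) : sqi n = 1 := if_pos ⟨h, h2⟩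

theorem sqi_neg {n : ℕ} (h2 : ¬ IsSquare n) : sqi n = 0 := if_neg fun h => h2 h.2

theorem sq_coprime {m n : ℕ} (h : m.Coprime n) : IsSquare (m * n) ↔ IsSquare m ∧ IsSquare n := by
  constructor
  · rintro ⟨r, hr⟩
    have hr2 : m * n = r ^ 2 := by rw [hr]; ring
    constructor
    · obtain ⟨d, hd⟩ := exists_eq_pow_of_mul_eq_pow (a := m) (b := n)
        (by rw [Nat.isUnit_iff]; exact h) hr2
      exact ⟨d, by rw [hd]; ring⟩
    · obtain ⟨d, hd⟩ := exists_eq_pow_of_mul_eq_pow (a := n) (b := m)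
        (by rw [Nat.isUnit_iff]; exact h.symm) (by rw [mul_comm]; exact hr2)
      exact ⟨d, by rw [hd]; ring⟩
  · rintro ⟨h1, h2⟩
    exact h1.mul h2

theorem sqi_mult : ArithmeticFunction.IsMultiplicative sqi := by
  refine ⟨sqi_pos one_ne_zero IsSquare.one, ?_⟩
  intro m n h
  by_cases hm : m = 0
  · subst hm
    rw [zero_mul, ArithmeticFunction.map_zero, zero_mul]
  by_cases hn : n = 0
  · subst hn
    rw [mul_zero, ArithmeticFunction.map_zero, mul_zero]
  by_cases h1 : IsSquare m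
  · by_cases h2 : IsSquare n
    · rw [sqi_pos hm h1, sqi_pos hn h2, sqi_pos (mul_ne_zero hm hn) ((sq_coprime h).2 ⟨h1, h2⟩),
        mul_one]
    · rw [sqi_neg h2, mul_zero, sqi_neg fun h3 => h2 ((sq_coprime h).1 h3).2]
  · rw [sqi_neg h1, zero_mul, sqi_neg fun h3 => h1 ((sq_coprime h).1 h3).1]

open ArithmeticFunction in
theorem liou_zeta : liouville * ((ArithmeticFunction.zeta : ArithmeticFunction ℕ) :
    ArithmeticFunction ℤ) = sqi := by
  rw [IsMultiplicative.eq_iff_eq_on_prime_powers _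
    (isMultiplicative_liouville.mul isMultiplicative_zeta.natCast) _ sqi_mult]
  intro p i hp
  rw [coe_mul_zeta_apply, Nat.sum_divisors_prime_pow hp]
  have h1 : ∀ j ∈ Finset.range (i + 1), liouville (p ^ j) = (-1) ^ j := by
    intro j _
    rw [liouville_apply (pow_ne_zero _ hp.ne_zero), cardFactors_apply_prime_pow hp]
  rw [Finset.sum_congr rfl h1]
  have h2 : ∑ j ∈ Finset.range (i + 1), (-1 : ℤ) ^ j = if Even (i + 1) then 0 else 1 :=
    neg_one_geom_sum
  rw [h2]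
  by_cases hi : Even i
  · rw [if_neg (by rw [Nat.even_add_one]; exact not_not.2 hi),
      sqi_pos (pow_ne_zero _ hp.ne_zero) (hi.isSquare_pow p)]
  · rw [if_pos (Nat.even_add_one.2 hi), sqi_neg]
    rintro ⟨r, hr⟩
    have h4 : r ∣ p ^ i := ⟨r, hr⟩
    obtain ⟨j, -, hj⟩ := (Nat.dvd_prime_pow hp).1 h4
    rw [hj, ← pow_add] at hr
    have h5 := Nat.pow_right_injective hp.two_le hr
    exact hi ⟨j, h5⟩

open ArithmeticFunction in
theorem sum_lm (n : ℕ) : ∑ p ∈ n.divisorsAntidiagonal, lm p.1 = ((sqi n : ℤ) : ℝ) := by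
  have h0 : ∑ p ∈ n.divisorsAntidiagonal, lm p.1 = ∑ d ∈ n.divisors, lm d :=
    Nat.sum_divisorsAntidiagonal (fun d _ => lm d)
  rw [h0, ← liou_zeta, coe_mul_zeta_apply, Int.cast_sum]
  refine Finset.sum_congr rfl fun d hd => ?_
  rw [liouville_apply (Nat.pos_of_mem_divisors hd).ne', lm]
  push_cast
  rfl

/-! ## The series -/

theorem norm_lm (n : ℕ) : ‖((lm n : ℝ) : ℂ)‖ = 1 := by
  rw [Complex.norm_real, lm, norm_pow, norm_neg, norm_one, one_pow]

theorem norm_xl_le {Q : ℕ} (χ : DirichletCharacter ℂ Q) (n : ℕ) : ‖xl χ n‖ ≤ 1 := by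
  rw [xl, norm_mul, norm_lm, mul_one]
  exact DirichletCharacter.norm_le_one χ n

theorem norm_sq_le {Q : ℕ} (χ : DirichletCharacter ℂ Q) (n : ℕ) : ‖(χ n) ^ 2‖ ≤ 1 := by
  rw [norm_pow]
  exact pow_le_one₀ (norm_nonneg _) (DirichletCharacter.norm_le_one χ n)

theorem conv_eq {Q : ℕ} (χ : DirichletCharacter ℂ Q) (n : ℕ) :
    LSeries.convolution (xl χ) (fun n : ℕ => χ n) n = χ n * ((sqi n : ℤ) : ℂ) := by
  rw [LSeries.convolution_def]
  have h1 : ∀ p ∈ n.divisorsAntidiagonal, xl χ p.1 * χ p.2 = χ n * ((lm p.1 : ℝ) : ℂ) := by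
    intro p hp
    have h2 := (Nat.mem_divisorsAntidiagonal.1 hp).1
    rw [xl, ← h2]
    push_cast
    rw [map_mul]
    ring
  change ∑ p ∈ n.divisorsAntidiagonal, xl χ p.1 * χ p.2 = _
  rw [Finset.sum_congr rfl h1, ← Finset.mul_sum, ← Complex.ofReal_sum, sum_lm n]
  push_cast
  rfl

theorem series_sq {Q : ℕ} (χ : DirichletCharacter ℂ Q) (s : ℂ) :
    LSeries (LSeries.convolution (xl χ) (fun n : ℕ => χ n)) s =
      LSeries (fun n : ℕ => (χ n) ^ 2) (2 * s) := by
  unfold LSeries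
  have hinj : Function.Injective fun m : ℕ => m ^ 2 := fun a b h => by
    simpa using h
  have hsup : Function.support (LSeries.term (LSeries.convolution (xl χ) (fun n : ℕ => χ n)) s) ⊆
      Set.range fun m : ℕ => m ^ 2 := by
    intro n hn
    rw [Function.mem_support] at hn
    by_cases hn0 : n = 0
    · rw [hn0, LSeries.term_zero] at hn
      exact absurd rfl hn
    · rw [LSeries.term_of_ne_zero hn0, conv_eq χ n] at hn
      by_contra hcon
      have h3 : ¬ IsSquare n := by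
        rintro ⟨r, hr⟩
        refine hcon ⟨r, ?_⟩
        change r ^ 2 = n
        rw [hr]
        ring
      rw [sqi_neg h3, Int.cast_zero, mul_zero, zero_div] at hn
      exact hn rfl
  rw [← hinj.tsum_eq hsup]
  refine tsum_congr fun m => ?_
  by_cases hm : m = 0
  · rw [hm]
    simp
  · have hm2 : m ^ 2 ≠ 0 := pow_ne_zero _ hm
    rw [LSeries.term_of_ne_zero hm2, LSeries.term_of_ne_zero hm, conv_eq χ _,
      sqi_pos hm2 ⟨m, by ring⟩, Int.cast_one, mul_one]
    have hmC : (m : ℂ) ≠ 0 := Nat.cast_ne_zero.2 hm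
    have h3 : ((m ^ 2 : ℕ) : ℂ) ^ s = (m : ℂ) ^ (2 * s) := by
      rw [pow_two, two_mul, Complex.cpow_add _ _ hmC, Nat.cast_mul,
        Complex.natCast_mul_natCast_cpow]
    rw [h3]
    push_cast
    rw [map_pow]

/-! ## The bound -/

theorem sum_le_three (N : ℕ) :
    ∑ n ∈ Finset.range N, (if n = 0 then (0 : ℝ) else 1 / (n : ℝ) ^ (3 / 2 : ℝ)) ≤ 3 := by
  have key : ∀ N : ℕ, ∑ n ∈ Finset.range (N + 2),
      (if n = 0 then (0 : ℝ) else 1 / (n : ℝ) ^ (3 / 2 : ℝ)) ≤ 3 - 2 / √((N : ℝ) + 1) := by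
    intro N
    induction N with
    | zero =>
      rw [Finset.sum_range_succ, Finset.sum_range_one]
      norm_num
    | succ N ih =>
      rw [Finset.sum_range_succ, if_neg (by omega)]
      have hpos : (0 : ℝ) < (N : ℝ) + 1 := by positivity
      have hpos2 : (0 : ℝ) < (N : ℝ) + 2 := by positivity
      have e1 : ((N + 2 : ℕ) : ℝ) = (N : ℝ) + 2 := by push_cast; ring
      have e2 : (((N + 1 : ℕ) : ℝ) + 1) = (N : ℝ) + 2 := by push_cast; ring
      have h1 : ((N : ℝ) + 2) ^ (3 / 2 : ℝ) = ((N : ℝ) + 2) * √((N : ℝ) + 2) := by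
        rw [Real.sqrt_eq_rpow, show (3 / 2 : ℝ) = 1 + 1 / 2 by norm_num, Real.rpow_add hpos2,
          Real.rpow_one]
      rw [e1, e2, h1]
      obtain ⟨a, ha⟩ : ∃ a, a = √((N : ℝ) + 1) := ⟨_, rfl⟩
      obtain ⟨b, hb⟩ : ∃ b, b = √((N : ℝ) + 2) := ⟨_, rfl⟩
      have ha0 : 0 < a := by rw [ha]; exact Real.sqrt_pos.2 hpos
      have hb0 : 0 < b := by rw [hb]; exact Real.sqrt_pos.2 hpos2
      have ha2 : a ^ 2 = (N : ℝ) + 1 := by rw [ha]; exact Real.sq_sqrt hpos.le
      have hb2 : b ^ 2 = (N : ℝ) + 2 := by rw [hb]; exact Real.sq_sqrt hpos2.le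
      have hab : a ≤ b := by
        rw [ha, hb]
        exact Real.sqrt_le_sqrt (by linarith)
      rw [← ha] at ih
      rw [← hb, ← hb2]
      have h5 : 1 / (b ^ 2 * b) ≤ 2 / a - 2 / b := by
        rw [div_sub_div _ _ ha0.ne' hb0.ne', div_le_div_iff₀ (by positivity) (by positivity)]
        have h6 : (b - a) * (b + a) = 1 := by nlinarith
        have h7 : a * (b - a) * (b + a) = a := by rw [mul_assoc, h6, mul_one]
        have h8 : 1 ≤ 2 * b * (b - a) := by nlinarith [mul_nonneg (sub_nonneg.2 hab) (sub_nonneg.2 hab)]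
        have h9 : 0 < b := hb0
        nlinarith [mul_le_mul_of_nonneg_left h8 (by positivity : 0 ≤ a * b),
          mul_pos ha0 hb0, mul_nonneg (mul_nonneg ha0.le hb0.le) (sub_nonneg.2 hab),
          mul_nonneg (mul_nonneg hb0.le hb0.le) (sub_nonneg.2 hab),
          mul_nonneg (mul_nonneg hb0.le (sub_nonneg.2 hab)) (by linarith : (0 : ℝ) ≤ 2 * b * (b - a) - 1)]
      linarith
  have h0 : ∀ n : ℕ, 0 ≤ (if n = 0 then (0 : ℝ) else 1 / (n : ℝ) ^ (3 / 2 : ℝ)) := by
    intro n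
    split_ifs
    · exact le_rfl
    · positivity
  calc ∑ n ∈ Finset.range N, (if n = 0 then (0 : ℝ) else 1 / (n : ℝ) ^ (3 / 2 : ℝ))
      ≤ ∑ n ∈ Finset.range (N + 2), (if n = 0 then (0 : ℝ) else 1 / (n : ℝ) ^ (3 / 2 : ℝ)) :=
        Finset.sum_le_sum_of_subset_of_nonneg (Finset.range_mono (by omega)) fun n _ _ => h0 n
    _ ≤ 3 - 2 / √((N : ℝ) + 1) := key N
    _ ≤ 3 := by
      have : 0 ≤ 2 / √((N : ℝ) + 1) := by positivity
      linarith

theorem series_bound (f : ℕ → ℂ) (hf : ∀ n, ‖f n‖ ≤ 1) (w : ℂ) (hw : 3 / 2 ≤ w.re) :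
    ‖LSeries f w‖ ≤ 3 := by
  have hsum : LSeriesSummable f w :=
    LSeriesSummable_of_bounded_of_one_lt_re (m := 1) (fun n _ => hf n) (by linarith)
  unfold LSeries
  refine (norm_tsum_le_tsum_norm hsum.norm).trans ?_
  have h1 : ∀ n, ‖LSeries.term f w n‖ ≤
      (if n = 0 then (0 : ℝ) else 1 / (n : ℝ) ^ (3 / 2 : ℝ)) := by
    intro n
    rw [LSeries.norm_term_eq]
    split_ifs with hn
    · exact le_rfl
    · have hn1 : (1 : ℝ) ≤ n := by exact_mod_cast Nat.one_le_iff_ne_zero.2 hn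
      have h2 : (n : ℝ) ^ (3 / 2 : ℝ) ≤ (n : ℝ) ^ w.re := Real.rpow_le_rpow_of_exponent_le hn1 hw
      have h3 : 0 < (n : ℝ) ^ (3 / 2 : ℝ) := Real.rpow_pos_of_pos (by linarith) _
      exact div_le_div₀ zero_le_one (hf n) h3 h2
  refine Real.tsum_le_of_sum_range_le (fun n => norm_nonneg _) fun N => ?_
  exact (Finset.sum_le_sum fun n _ => h1 n).trans (sum_le_three N)

/-- job HC-LID -/
theorem t_LID : S_LID := by
  intro Q _ χ
  refine ⟨?_, ?_⟩
  · intro s hs
    rw [DirichletCharacter.LFunction_eq_LSeries χ hs, ← series_sq,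
      LSeries_convolution' (LSeriesSummable_of_bounded_of_one_lt_re (m := 1)
        (fun n _ => norm_xl_le χ n) hs) (χ.LSeriesSummable_of_one_lt_re hs)]
  · intro s hs
    have hre : (2 * s).re = 2 * s.re := by simp
    refine ⟨?_, series_bound _ (norm_sq_le χ) _ (by rw [hre]; linarith)⟩
    have h1 : LSeries.abscissaOfAbsConv (fun n : ℕ => (χ n) ^ 2) < (2 * s).re := by
      refine lt_of_le_of_lt (LSeries.abscissaOfAbsConv_le_of_le_const
        ⟨1, fun n _ => norm_sq_le χ n⟩) ?_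
      rw [hre]
      exact_mod_cast (by linarith : (1 : ℝ) < 2 * s.re)
    have h2 := (LSeries_hasDerivAt h1).differentiableAt
    exact h2.comp s ((differentiableAt_id).const_mul 2)

end Pool.Agent.Q68.HC
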